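import Mathlib

/-! Finite commutative `p`-groups: splitting alternating bimultiplicative maps, retracts of a universal group,
separating characters. -/

set_option autoImplicit false

namespace Pool.Agent.H300.UG

open Subgroup

/-- An alternating bimultiplicative map `c` is `T(x, y) / T(y, x)` for some bimultiplicative `T`. -/
theorem exists_T {Q M : Type} [CommGroup Q] [Finite Q] [CommGroup M] (c : Q →* Q →* M)
    (hc : ∀ q, c q q = 1) : ∃ T : Q →* Q →* M, ∀ x y, T x y = T y x * c x y := by
  classical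
  obtain ⟨ι, _, n, hn, ⟨e⟩⟩ := CommGroup.equiv_prod_multiplicative_zmod_of_finite Q
  let o : ι → ℕ := fun i => (Fintype.equivFin ι i : ℕ)
  have ho : Function.Injective o := fun i j h => (Fintype.equivFin ι).injective (Fin.ext h)
  let s : ι → Q →* Q := fun i => e.symm.toMonoidHom.comp
    ((MonoidHom.mulSingle (fun i => Multiplicative (ZMod (n i))) i).comp
      ((Pi.evalMonoidHom (fun i => Multiplicative (ZMod (n i))) i).comp e.toMonoidHom))
  have hs : ∀ i q, s i q = e.symm (Pi.mulSingle i (e q i)) := fun i q => rfl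
  have hsum : ∀ q, ∏ i, s i q = q := by
    intro q
    have h1 : ∏ i, Pi.mulSingle i (e q i) = e q := Finset.univ_prod_mulSingle (e q)
    simp only [hs]
    rw [← map_prod, h1, MulEquiv.symm_apply_apply]
  -- antisymmetry
  have hanti : ∀ x y, c x y * c y x = 1 := by
    intro x y
    have h1 := hc (x * y)
    rw [map_mul, map_mul, MonoidHom.mul_apply, MonoidHom.mul_apply, hc, hc, one_mul, mul_one,
      mul_comm] at h1
    exact h1
  -- cyclic
  have hcyc : ∀ i x y, c (s i x) (s i y) = 1 := by
    intro i x y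
    let g : Q := e.symm (Pi.mulSingle i (Multiplicative.ofAdd (1 : ZMod (n i))))
    have hg : ∀ z, ∃ k : ℕ, s i z = g ^ k := by
      intro z
      haveI : NeZero (n i) := ⟨by have := hn i; omega⟩
      refine ⟨((e z i).toAdd : ZMod (n i)).val, ?_⟩
      rw [hs, ← map_pow, ← Pi.mulSingle_pow]
      congr 2
      apply Multiplicative.toAdd.injective
      rw [toAdd_pow, toAdd_ofAdd, nsmul_eq_mul, mul_one, ZMod.natCast_zmod_val]
    obtain ⟨a, ha⟩ := hg x
    obtain ⟨b, hb⟩ := hg y
    have h2 : ∀ z, (c (g ^ a)) z = (c g z) ^ a := by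
      intro z
      rw [map_pow]
      rfl
    rw [ha, hb, map_pow, h2, hc, one_pow, one_pow]
  let t : ι → ι → Q →* Q →* M := fun i j => ((MonoidHom.compHom' (s j)).comp (c.comp (s i)))
  have ht : ∀ i j x y, t i j x y = c (s i x) (s j y) := fun i j x y => rfl
  refine ⟨∏ i, ∏ j, if o j < o i then t i j else 1, fun x y => ?_⟩
  have hT : ∀ x y, (∏ i, ∏ j, if o j < o i then t i j else 1 : Q →* Q →* M) x y =
      ∏ i, ∏ j, if o j < o i then c (s i x) (s j y) else 1 := by
    intro x y
    rw [MonoidHom.finsetProd_apply, MonoidHom.finsetProd_apply]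
    refine Finset.prod_congr rfl fun i _ => ?_
    rw [MonoidHom.finsetProd_apply, MonoidHom.finsetProd_apply]
    refine Finset.prod_congr rfl fun j _ => ?_
    split_ifs with h
    · exact ht i j x y
    · rfl
  have hcs : c x y = ∏ i, ∏ j, c (s i x) (s j y) := by
    conv_lhs => rw [← hsum x, ← hsum y]
    rw [map_prod c, MonoidHom.finsetProd_apply]
    refine Finset.prod_congr rfl fun i _ => ?_
    rw [map_prod]
  rw [hT, hT, hcs, Finset.prod_comm (f := fun i j => if o j < o i then c (s i y) (s j x) else 1),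
    ← Finset.prod_mul_distrib]
  refine Finset.prod_congr rfl fun i _ => ?_
  rw [← Finset.prod_mul_distrib]
  refine Finset.prod_congr rfl fun j _ => ?_
  rcases lt_trichotomy (o i) (o j) with h | h | h
  · rw [if_neg (by omega), if_pos h, hanti]
  · have hij : i = j := ho h
    subst hij
    rw [if_neg (by omega), if_neg (by omega), one_mul, hcyc]
  · rw [if_pos h, if_neg (by omega), one_mul]

/-- separating characters -/
theorem exists_chars {Z : Type} [CommGroup Z] [Finite Z] {p : ℕ} (hp : p.Prime) :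
    ∀ (k : ℕ) (K : Subgroup Z), Nat.card K ∣ p ^ k →
      ∃ l : Fin k → (Z →* ℂˣ), ∀ z ∈ K, (∀ i, l i z = 1) → z = 1 := by
  intro k
  induction k with
  | zero =>
    intro K hK
    refine ⟨fun i => i.elim0, fun z hz _ => ?_⟩
    rw [pow_zero, Nat.dvd_one] at hK
    exact (Subgroup.eq_bot_of_card_eq K hK ▸ hz : z ∈ (⊥ : Subgroup Z))
  | succ k ih =>
    intro K hK
    by_cases hb : K = ⊥
    · refine ⟨fun _ => 1, fun z hz _ => ?_⟩
      rw [hb] at hz
      exact hz
    · obtain ⟨⟨z, hz⟩, hz0⟩ := Subgroup.ne_bot_iff_exists_ne_one.mp hb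
      have hz1 : z ≠ 1 := fun h' => hz0 (Subtype.ext h')
      obtain ⟨χ, hχ⟩ := CommGroup.exists_apply_ne_one_of_hasEnoughRootsOfUnity Z ℂ hz1
      have hlt : Nat.card (K ⊓ χ.ker : Subgroup Z) < Nat.card K := by
        apply Set.Finite.card_lt_card (Set.toFinite _)
        refine ⟨fun x hx => hx.1, fun h => hχ ?_⟩
        exact MonoidHom.mem_ker.mp (h hz).2
      have hdv : Nat.card (K ⊓ χ.ker : Subgroup Z) ∣ Nat.card K :=
        Subgroup.card_dvd_of_le inf_le_left
      obtain ⟨a, ha, hKa⟩ := (Nat.dvd_prime_pow hp).mp hK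
      obtain ⟨b, hb', hKb⟩ := (Nat.dvd_prime_pow hp).mp (hdv.trans hK)
      rw [hKa, hKb, Nat.pow_lt_pow_iff_right hp.one_lt] at hlt
      obtain ⟨l, hl⟩ := ih (K ⊓ χ.ker) (by rw [hKb]; exact pow_dvd_pow p (by omega))
      refine ⟨Fin.cons χ l, fun w hw h => ?_⟩
      refine hl w ⟨hw, ?_⟩ fun i => ?_
      · have := h 0
        rw [Fin.cons_zero] at this
        exact MonoidHom.mem_ker.mpr this
      · have := h i.succ
        rw [Fin.cons_succ] at this
        exact this

end Pool.Agent.H300.UG
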