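import Mathlib

/-! Every commutative group of order `p ^ k`, `k ≤ n`, is a retract of one group of order at most `p ^ (n ^ 2)`. -/

set_option autoImplicit false

namespace Pool.Agent.H300.UG

/-- for `b = 1, …, n` there are `⌊n / b⌋` slots -/
abbrev Slot (n : ℕ) : Type := (b : Fin n) × Fin (n / (b.val + 1))

/-- the product of `⌊n / b⌋` copies of the cyclic group of order `p ^ b`, `b = 1, …, n` -/
abbrev Ab (p n : ℕ) : Type := (s : Slot n) → Multiplicative (ZMod (p ^ (s.1.val + 1)))

theorem card_ab (p n : ℕ) : Nat.card (Ab p n) = p ^ ∑ s : Slot n, (s.1.val + 1) := by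
  rw [Nat.card_pi]
  rw [← Finset.prod_pow_eq_pow_sum]
  refine Finset.prod_congr rfl fun s _ => ?_
  rw [Nat.card_congr Multiplicative.toAdd, Nat.card_zmod]

theorem sum_le (n : ℕ) : ∑ s : Slot n, (s.1.val + 1) ≤ n * n := by
  rw [Fintype.sum_sigma]
  calc ∑ b : Fin n, ∑ _y : Fin (n / (b.val + 1)), (b.val + 1)
      ≤ ∑ _b : Fin n, n := by
        refine Finset.sum_le_sum fun b _ => ?_
        rw [Finset.sum_const, Finset.card_univ, Fintype.card_fin, smul_eq_mul]
        exact Nat.div_mul_le_self n (b.val + 1)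
    _ = n * n := by simp

theorem ab_pow (p n : ℕ) (a : Ab p n) : a ^ (p ^ n) = 1 := by
  funext s
  apply Multiplicative.toAdd.injective
  rw [Pi.pow_apply, toAdd_pow, Pi.one_apply, toAdd_one, nsmul_eq_mul]
  have h1 : ((p ^ n : ℕ) : ZMod (p ^ (s.1.val + 1))) = 0 := by
    rw [ZMod.natCast_eq_zero_iff]
    exact pow_dvd_pow p s.1.isLt
  rw [h1, zero_mul]

theorem exists_slots {ι : Type} [Fintype ι] (a : ι → ℕ) (n : ℕ) (ha : ∀ i, 1 ≤ a i)
    (hs : ∑ i, a i ≤ n) : ∃ σ : ι → Slot n, Function.Injective σ ∧ ∀ i, (σ i).1.val + 1 = a i := by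
  classical
  let o : ι → ℕ := fun i => (Fintype.equivFin ι i : ℕ)
  have ho : Function.Injective o := fun i j h => (Fintype.equivFin ι).injective (Fin.ext h)
  let r : ι → ℕ := fun i => (Finset.univ.filter fun j => a j = a i ∧ o j < o i).card
  have hle : ∀ i, a i ≤ n := fun i =>
    (Finset.single_le_sum (f := a) (fun _ _ => Nat.zero_le _) (Finset.mem_univ i)).trans hs
  have hr : ∀ i, r i < n / (a i - 1 + 1) := by
    intro i
    have hi := ha i
    rw [Nat.sub_add_cancel hi]
    have h1 : r i < (Finset.univ.filter fun j => a j = a i).card := by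
      apply Finset.card_lt_card
      refine ⟨fun j hj => ?_, fun h => ?_⟩
      · rw [Finset.mem_filter] at hj ⊢
        exact ⟨hj.1, hj.2.1⟩
      · have h2 : i ∈ Finset.univ.filter fun j => a j = a i := by simp
        have h3 := h h2
        rw [Finset.mem_filter] at h3
        exact absurd h3.2.2 (lt_irrefl _)
    refine lt_of_lt_of_le h1 ?_
    rw [Nat.le_div_iff_mul_le (by omega)]
    calc (Finset.univ.filter fun j => a j = a i).card * a i
        = ∑ j ∈ Finset.univ.filter (fun j => a j = a i), a j := by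
          rw [Finset.sum_congr rfl (g := fun _ => a i) (fun j hj => (Finset.mem_filter.mp hj).2),
            Finset.sum_const, smul_eq_mul]
      _ ≤ ∑ j, a j := Finset.sum_le_sum_of_subset (Finset.filter_subset _ _)
      _ ≤ n := hs
  refine ⟨fun i => ⟨⟨a i - 1, by have := ha i; have := hle i; omega⟩, ⟨r i, hr i⟩⟩, ?_, ?_⟩
  · intro i j hij
    have h1 : a i - 1 = a j - 1 := congrArg (fun s : Slot n => s.1.val) hij
    have h2 : r i = r j := congrArg (fun s : Slot n => s.2.val) hij
    have h3 : a i = a j := by have := ha i; have := ha j; omega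
    have key : ∀ i j, a i = a j → o i < o j → r i < r j := by
      intro i j h3 h4
      apply Finset.card_lt_card
      refine ⟨fun l hl => ?_, fun h => ?_⟩
      · rw [Finset.mem_filter] at hl ⊢
        exact ⟨hl.1, hl.2.1.trans h3, hl.2.2.trans h4⟩
      · have h5 : i ∈ Finset.univ.filter fun l => a l = a j ∧ o l < o j := by
          rw [Finset.mem_filter]
          exact ⟨Finset.mem_univ i, h3, h4⟩
        have h6 := h h5
        rw [Finset.mem_filter] at h6
        exact absurd h6.2.2 (lt_irrefl _)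
    rcases lt_trichotomy (o i) (o j) with h | h | h
    · exact absurd (key i j h3 h) (by omega)
    · exact ho h
    · exact absurd (key j i h3.symm h) (by omega)
  · intro i
    have := ha i
    change a i - 1 + 1 = a i
    omega

/-- **Retracts.** -/
theorem exists_retract {Q : Type} [CommGroup Q] [Finite Q] {p n k : ℕ} (hp : p.Prime) (hk : k ≤ n)
    (hQ : Nat.card Q = p ^ k) :
    ∃ (inj : Q →* Ab p n) (pr : Ab p n →* Q), ∀ q, pr (inj q) = q := by
  classical
  obtain ⟨ι, _, m, hm, ⟨e⟩⟩ := CommGroup.equiv_prod_multiplicative_zmod_of_finite Q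
  have hcard : ∏ i, m i = p ^ k := by
    rw [← hQ, Nat.card_congr e.toEquiv, Nat.card_pi]
    refine Finset.prod_congr rfl fun i _ => ?_
    rw [Nat.card_congr Multiplicative.toAdd, Nat.card_zmod]
  have hex : ∀ i, ∃ a, m i = p ^ a := by
    intro i
    have h1 : m i ∣ p ^ k := by
      rw [← hcard]
      exact Finset.dvd_prod_of_mem m (Finset.mem_univ i)
    obtain ⟨a, -, ha⟩ := (Nat.dvd_prime_pow hp).mp h1
    exact ⟨a, ha⟩
  choose a ha using hex
  have ha1 : ∀ i, 1 ≤ a i := by
    intro i
    by_contra h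
    have h0 : a i = 0 := by omega
    have := hm i
    rw [ha i, h0, pow_zero] at this
    exact lt_irrefl _ this
  have hsum : ∑ i, a i = k := by
    have h1 : p ^ ∑ i, a i = p ^ k := by
      rw [← hcard, ← Finset.prod_pow_eq_pow_sum]
      exact Finset.prod_congr rfl fun i _ => (ha i).symm
    exact Nat.pow_right_injective hp.two_le h1
  obtain ⟨σ, hσ, hσa⟩ := exists_slots a n ha1 (hsum.le.trans hk)
  have hmm : ∀ i, m i = p ^ ((σ i).1.val + 1) := fun i => by rw [hσa, ha]
  let g : ∀ i, Multiplicative (ZMod (m i)) ≃* Multiplicative (ZMod (p ^ ((σ i).1.val + 1))) := fun i =>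
    AddEquiv.toMultiplicative (ZMod.ringEquivCongr (hmm i)).toAddEquiv
  let inj : Q →* Ab p n := ∏ i, (MonoidHom.mulSingle
    (fun s : Slot n => Multiplicative (ZMod (p ^ (s.1.val + 1)))) (σ i)).comp
      ((g i).toMonoidHom.comp ((Pi.evalMonoidHom (fun i => Multiplicative (ZMod (m i))) i).comp
        e.toMonoidHom))
  have hinj : ∀ q, inj q = ∏ i, Pi.mulSingle (σ i) (g i (e q i)) := by
    intro q
    change (∏ i, _ : Q →* Ab p n) q = _
    rw [MonoidHom.finsetProd_apply]
    rfl
  let pr0 : Ab p n →* ((i : ι) → Multiplicative (ZMod (m i))) := MonoidHom.mk'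
    (fun y i => (g i).symm (y (σ i))) (by
      intro y z
      funext i
      rw [Pi.mul_apply, map_mul, Pi.mul_apply])
  refine ⟨inj, e.symm.toMonoidHom.comp pr0, fun q => ?_⟩
  have h1 : pr0 (inj q) = e q := by
    funext i
    change (g i).symm (inj q (σ i)) = e q i
    rw [hinj, Finset.prod_apply, Finset.prod_eq_single i]
    · rw [Pi.mulSingle_eq_same, MulEquiv.symm_apply_apply]
    · intro j _ hj
      exact Pi.mulSingle_eq_of_ne (fun h => hj (hσ h).symm) _
    · intro h
      exact absurd (Finset.mem_univ i) h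
  change e.symm (pr0 (inj q)) = q
  rw [h1, MulEquiv.symm_apply_apply]

end Pool.Agent.H300.UG
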