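import Mathlib

/-! Functions `δ` on a finite group of class at most two with `δ (x y) = δ x δ y T(x, y)`, `T` bimultiplicative,
which extend a given character of the centre. -/

set_option autoImplicit false

namespace Pool.Agent.H300.UG

open Subgroup

open scoped commutatorElement

/-- characters of a central subgroup extend, if they are trivial on commutators -/
theorem ext_central {E : Type} [Group E] [Finite E] (C : Subgroup E) (hC : C ≤ center E)
    (ρ₀ : C →* ℂˣ) (hcm : ∀ x y : E, ∃ h : ⁅x, y⁆ ∈ C, ρ₀ ⟨⁅x, y⁆, h⟩ = 1) :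
    ∃ ρ : E →* ℂˣ, ∀ c : C, ρ c = ρ₀ c := by
  classical
  let N : Subgroup E := ρ₀.ker.map C.subtype
  have hN : N ≤ center E := by
    rintro _ ⟨c, -, rfl⟩
    exact hC c.2
  haveI : N.Normal := by
    constructor
    intro a ha g
    have h1 : g * a * g⁻¹ = a := by
      rw [mem_center_iff.mp (hN ha) g]; group
    rw [h1]; exact ha
  have hcom : ∀ a b : E ⧸ N, a * b = b * a := by
    intro a b
    obtain ⟨x, rfl⟩ := QuotientGroup.mk_surjective a
    obtain ⟨y, rfl⟩ := QuotientGroup.mk_surjective b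
    rw [← QuotientGroup.mk_mul, ← QuotientGroup.mk_mul, QuotientGroup.eq]
    obtain ⟨h, h1⟩ := hcm y⁻¹ x⁻¹
    refine ⟨⟨⁅y⁻¹, x⁻¹⁆, h⟩, h1, ?_⟩
    simp only [Subgroup.coe_subtype, commutatorElement_def]
    group
  letI : CommGroup (E ⧸ N) := { (inferInstance : Group (E ⧸ N)) with mul_comm := hcom }
  let f : C →* (E ⧸ N) := (QuotientGroup.mk' N).comp C.subtype
  let g : C →* f.range := f.rangeRestrict
  have hg : Function.Surjective g := f.rangeRestrict_surjective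
  have hk : g.ker ≤ ρ₀.ker := by
    intro c hc
    have h1 : f c = 1 := by
      have := congrArg Subtype.val (MonoidHom.mem_ker.mp hc)
      exact this
    have h2 : (c : E) ∈ N := (QuotientGroup.eq_one_iff (c : E)).mp h1
    obtain ⟨k, hk, hkc⟩ := h2
    have : k = c := Subtype.ext hkc
    rw [← this]; exact hk
  let s := Function.surjInv hg
  have hs : Function.RightInverse s g := Function.rightInverse_surjInv hg
  let σ : f.range →* ℂˣ := g.liftOfRightInverse s hs ⟨ρ₀, hk⟩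
  have hσ : ∀ c, σ (g c) = ρ₀ c := fun c => MonoidHom.liftOfRightInverse_comp_apply g s hs ⟨ρ₀, hk⟩ c
  obtain ⟨τ, hτ⟩ := MonoidHom.domRestrict_surjective (G := E ⧸ N) ℂ f.range σ
  refine ⟨τ.comp (QuotientGroup.mk' N), fun c => ?_⟩
  have h1 := hσ c
  rw [← hτ] at h1
  exact h1

/-- `D × P` with the multiplication twisted by the inverse of `T` -/
@[ext] structure Tw (P D : Type) [Group P] [CommGroup D] (T : P →* P →* D) where
  d : D
  x : P

section

variable {P D : Type} [Group P] [CommGroup D] (T : P →* P →* D)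

instance : Mul (Tw P D T) := ⟨fun a b => ⟨a.d * b.d * (T a.x b.x)⁻¹, a.x * b.x⟩⟩
instance : One (Tw P D T) := ⟨⟨1, 1⟩⟩
instance : Inv (Tw P D T) := ⟨fun a => ⟨a.d⁻¹ * (T a.x a.x)⁻¹, a.x⁻¹⟩⟩

theorem mul_d (a b : Tw P D T) : (a * b).d = a.d * b.d * (T a.x b.x)⁻¹ := rfl
theorem mul_x (a b : Tw P D T) : (a * b).x = a.x * b.x := rfl
theorem one_d : (1 : Tw P D T).d = 1 := rfl
theorem one_x : (1 : Tw P D T).x = 1 := rfl
theorem inv_d (a : Tw P D T) : (a⁻¹).d = a.d⁻¹ * (T a.x a.x)⁻¹ := rfl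
theorem inv_x (a : Tw P D T) : (a⁻¹).x = a.x⁻¹ := rfl

instance : Group (Tw P D T) :=
  Group.ofLeftAxioms
    (by
      intro x y z
      ext
      · simp only [mul_d, mul_x, map_mul, MonoidHom.mul_apply, mul_inv]
        simp only [mul_comm, mul_left_comm, mul_assoc]
      · simp only [mul_x, mul_assoc])
    (by
      intro x
      ext
      · simp [mul_d, one_d, one_x]
      · simp [mul_x, one_x])
    (by
      intro x
      ext
      · simp only [mul_d, inv_d, inv_x, one_d, map_inv, MonoidHom.inv_apply, inv_inv]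
        rw [mul_assoc, mul_assoc]
        rw [show (T x.x x.x)⁻¹ * (x.d * T x.x x.x) = x.d by
          rw [mul_comm x.d, inv_mul_cancel_left]]
        exact inv_mul_cancel _
      · simp [mul_x, inv_x, one_x])

def twEquiv : Tw P D T ≃ D × P where
  toFun a := (a.d, a.x)
  invFun a := ⟨a.1, a.2⟩
  left_inv _ := rfl
  right_inv _ := rfl

theorem card_tw : Nat.card (Tw P D T) = Nat.card D * Nat.card P := by
  rw [Nat.card_congr (twEquiv T), Nat.card_prod]

end

/-- **The function `δ`.** -/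
theorem exists_delta {P : Type} [Group P] [Finite P] {N : ℕ} [NeZero N]
    (hcl : ∀ x y : P, ⁅x, y⁆ ∈ center P)
    (T : P →* P →* rootsOfUnity N ℂ) (l : center P →* rootsOfUnity N ℂ)
    (hT1 : ∀ z ∈ center P, ∀ x, T z x = 1) (hT2 : ∀ z ∈ center P, ∀ x, T x z = 1)
    (hT : ∀ x y, T x y = T y x * l ⟨⁅x, y⁆, hcl x y⟩) :
    ∃ δ : P → ℂˣ, (∀ x y, δ (x * y) = δ x * δ y * (T x y : ℂˣ)) ∧
      (∀ z : center P, δ z = (l z : ℂˣ)) ∧ ∀ x, δ x ^ (N * Nat.card P) = 1 := by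
  classical
  let E := Tw P (rootsOfUnity N ℂ) T
  haveI : Finite E := Finite.of_equiv _ (twEquiv T).symm
  let C : Subgroup E :=
    { carrier := {a | a.x ∈ center P}
      mul_mem' := fun {a b} ha hb => by
        change (a * b).x ∈ center P
        rw [mul_x]; exact mul_mem ha hb
      one_mem' := by
        change (1 : E).x ∈ center P
        rw [one_x]; exact one_mem _
      inv_mem' := fun {a} ha => by
        change (a⁻¹).x ∈ center P
        rw [inv_x]; exact inv_mem ha }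
  have hCm : ∀ a : E, a ∈ C ↔ a.x ∈ center P := fun a => Iff.rfl
  have hC : C ≤ center E := by
    intro a ha
    rw [mem_center_iff]
    intro b
    have ha' : a.x ∈ center P := ha
    ext
    · rw [mul_d, mul_d, hT1 _ ha', hT2 _ ha', mul_comm b.d]
    · rw [mul_x, mul_x]
      exact mem_center_iff.mp ha' _
  let ρ₀ : C →* ℂˣ := MonoidHom.mk'
    (fun a => ((a.1.d * l ⟨a.1.x, a.2⟩ : rootsOfUnity N ℂ) : ℂˣ)) (by
      rintro ⟨a, ha⟩ ⟨b, hb⟩
      have h1 : (⟨(a * b).x, (mul_mem ha hb : a * b ∈ C)⟩ : center P) = ⟨a.x, ha⟩ * ⟨b.x, hb⟩ := rfl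
      change (((a * b).d * l ⟨(a * b).x, _⟩ : rootsOfUnity N ℂ) : ℂˣ) = _
      rw [h1, map_mul, mul_d, hT1 _ ha, inv_one, mul_one, ← Subgroup.coe_mul]
      congr 1
      exact mul_mul_mul_comm _ _ _ _)
  have hρ₀ : ∀ (a : E) (ha : a ∈ C), ρ₀ ⟨a, ha⟩ = ((a.d * l ⟨a.x, ha⟩ : rootsOfUnity N ℂ) : ℂˣ) :=
    fun a ha => rfl
  obtain ⟨ρ, hρ⟩ := ext_central C hC ρ₀ (by
    intro a b
    have hx : (⁅a, b⁆ : E).x = ⁅a.x, b.x⁆ := rfl
    have hm : (⁅a, b⁆ : E) ∈ C := by rw [hCm, hx]; exact hcl _ _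
    refine ⟨hm, ?_⟩
    rw [hρ₀]
    have h1 : (⁅a, b⁆ : E) * (b * a) = a * b := by rw [commutatorElement_def]; group
    have h2 := congrArg Tw.d h1
    rw [mul_d, mul_d, mul_d] at h2
    have h3 : T (⁅a, b⁆ : E).x (b * a).x = 1 := hT1 _ (by rw [hx]; exact hcl _ _) _
    rw [h3, inv_one, mul_one, hT a.x b.x, mul_comm a.d b.d, mul_inv] at h2
    have h4 : (⁅a, b⁆ : E).d * (b.d * a.d * (T b.x a.x)⁻¹) =
        (l ⟨⁅a.x, b.x⁆, hcl _ _⟩)⁻¹ * (b.d * a.d * (T b.x a.x)⁻¹) := by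
      rw [h2]; ac_rfl
    have h5 := mul_right_cancel h4
    rw [h5]
    have h6 : (⟨(⁅a, b⁆ : E).x, hm⟩ : center P) = ⟨⁅a.x, b.x⁆, hcl _ _⟩ := rfl
    rw [h6, inv_mul_cancel]
    rfl)
  have key : ∀ (d : rootsOfUnity N ℂ) (x : P), ρ ⟨d, x⟩ = (d : ℂˣ) * ρ ⟨1, x⟩ := by
    intro d x
    have h1 : (⟨d, x⟩ : E) = ⟨d, 1⟩ * ⟨1, x⟩ := by
      ext
      · rw [mul_d]; simp
      · rw [mul_x]; simp
    have h2 : (⟨d, 1⟩ : E) ∈ C := one_mem (center P)
    have h3 := hρ ⟨_, h2⟩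
    rw [hρ₀] at h3
    have h4 : (⟨(⟨d, 1⟩ : E).x, h2⟩ : center P) = 1 := rfl
    rw [h4, map_one, mul_one] at h3
    rw [h1, map_mul]
    rw [show ρ (⟨d, 1⟩ : E) = (d : ℂˣ) from h3]
  refine ⟨fun x => ρ ⟨1, x⟩, fun x y => ?_, fun z => ?_, fun x => ?_⟩
  · have h1 : (⟨1, x⟩ : E) * ⟨1, y⟩ = ⟨(T x y)⁻¹, x * y⟩ := by
      ext
      · rw [mul_d]; simp
      · rw [mul_x]
    rw [← map_mul, h1, key]
    simp
  · have h2 : (⟨1, z⟩ : E) ∈ C := z.2
    have h3 := hρ ⟨_, h2⟩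
    rw [hρ₀] at h3
    change ρ (⟨1, z⟩ : E) = _
    rw [show ρ (⟨1, z⟩ : E) = _ from h3, one_mul]
  · have h1 : Nat.card E = N * Nat.card P := by
      rw [card_tw, Complex.card_rootsOfUnity]
    rw [← map_pow, ← h1, pow_card_eq_one', map_one]

end Pool.Agent.H300.UG
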