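import Mathlib
import Pool.Agent.H300.UG.Tw
import Pool.Agent.H300.UG.Dec
import Pool.Agent.H300.UG.Ret

/-! A group of order at most `p ^ (n ^ 3 + 3 n ^ 2)` which contains all groups of order `p ^ n` of class at most
two. -/

set_option autoImplicit false

namespace Pool.Agent.H300.UG

open Subgroup

open scoped commutatorElement

/-- `M × B × A` with `(m, b, a) (m', b', a') = (m m' β(a, b'), b b', a a')` -/
@[ext] structure Heis (A B M : Type) [CommGroup A] [CommGroup B] [CommGroup M] (β : A →* B →* M) where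
  m : M
  b : B
  a : A

section

variable {A B M : Type} [CommGroup A] [CommGroup B] [CommGroup M] (β : A →* B →* M)

instance : Mul (Heis A B M β) := ⟨fun x y => ⟨x.m * y.m * β x.a y.b, x.b * y.b, x.a * y.a⟩⟩
instance : One (Heis A B M β) := ⟨⟨1, 1, 1⟩⟩
instance : Inv (Heis A B M β) := ⟨fun x => ⟨x.m⁻¹ * β x.a x.b, x.b⁻¹, x.a⁻¹⟩⟩

theorem hm (x y : Heis A B M β) : (x * y).m = x.m * y.m * β x.a y.b := rfl
theorem hb (x y : Heis A B M β) : (x * y).b = x.b * y.b := rfl
theorem ha (x y : Heis A B M β) : (x * y).a = x.a * y.a := rfl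
theorem h1m : (1 : Heis A B M β).m = 1 := rfl
theorem h1b : (1 : Heis A B M β).b = 1 := rfl
theorem h1a : (1 : Heis A B M β).a = 1 := rfl
theorem him (x : Heis A B M β) : (x⁻¹).m = x.m⁻¹ * β x.a x.b := rfl
theorem hib (x : Heis A B M β) : (x⁻¹).b = x.b⁻¹ := rfl
theorem hia (x : Heis A B M β) : (x⁻¹).a = x.a⁻¹ := rfl

instance : Group (Heis A B M β) :=
  Group.ofLeftAxioms
    (by
      intro x y z
      ext
      · simp only [hm, hb, ha, map_mul, MonoidHom.mul_apply]
        simp only [mul_comm, mul_left_comm, mul_assoc]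
      · simp only [hb, mul_assoc]
      · simp only [ha, mul_assoc])
    (by
      intro x
      ext
      · simp [hm, h1m, h1a]
      · simp [hb, h1b]
      · simp [ha, h1a])
    (by
      intro x
      ext
      · simp only [hm, him, hia, h1m, map_inv, MonoidHom.inv_apply]
        rw [mul_right_comm, mul_inv_cancel_right, inv_mul_cancel]
      · simp [hb, hib, h1b]
      · simp [ha, hia, h1a])

def heisEquiv : Heis A B M β ≃ M × B × A where
  toFun x := (x.m, x.b, x.a)
  invFun x := ⟨x.1, x.2.1, x.2.2⟩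
  left_inv _ := rfl
  right_inv _ := rfl

theorem card_heis : Nat.card (Heis A B M β) = Nat.card M * (Nat.card B * Nat.card A) := by
  rw [Nat.card_congr (heisEquiv β), Nat.card_prod, Nat.card_prod]

end

/-- the pairing of `A` with `n` characters of `A` -/
noncomputable def pair {A : Type} [CommGroup A] (n N : ℕ) (hA : ∀ a : A, a ^ N = 1) :
    A →* (Fin n → (A →* ℂˣ)) →* (Fin n → rootsOfUnity N ℂ) :=
  MonoidHom.mk' (fun a => MonoidHom.mk'
    (fun f i => ⟨f i a, by rw [mem_rootsOfUnity', ← Units.val_pow_eq_pow_val, ← map_pow, hA, map_one, Units.val_one]⟩)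
    (by
      intro f g
      funext i
      rfl))
    (by
      intro a b
      apply MonoidHom.ext
      intro f
      funext i
      apply Subtype.ext
      exact map_mul (f i) a b)

theorem pair_apply {A : Type} [CommGroup A] (n N : ℕ) (hA : ∀ a : A, a ^ N = 1) (a : A)
    (f : Fin n → (A →* ℂˣ)) (i : Fin n) : ((pair n N hA a f i : rootsOfUnity N ℂ) : ℂˣ) = f i a := rfl

theorem ab_pow' (p n : ℕ) (a : Ab p n) : a ^ (p ^ (2 * n)) = 1 := by
  rw [two_mul, pow_add, pow_mul, ab_pow]

/-- the universal group for class at most two -/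
abbrev Uni (p n : ℕ) : Type :=
  Heis (Ab p n) (Fin n → (Ab p n →* ℂˣ)) (Fin n → rootsOfUnity (p ^ (2 * n)) ℂ)
    (pair n (p ^ (2 * n)) (ab_pow' p n))

theorem card_uni {p : ℕ} (hp : p.Prime) (n : ℕ) :
    Nat.card (Uni p n) = p ^ (2 * n * n + (n + 1) * ∑ s : Slot n, (s.1.val + 1)) := by
  haveI : NeZero (p ^ (2 * n)) := ⟨(pow_pos hp.pos _).ne'⟩
  haveI : ∀ s : Slot n, NeZero (p ^ (s.1.val + 1)) := fun s => ⟨(pow_pos hp.pos _).ne'⟩
  haveI : ∀ s : Slot n, Finite (Multiplicative (ZMod (p ^ (s.1.val + 1)))) := fun s =>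
    inferInstanceAs (Finite (ZMod (p ^ (s.1.val + 1))))
  haveI : Finite (Ab p n) := Pi.finite
  rw [card_heis, Nat.card_fun, Nat.card_fun, Nat.card_fin, Complex.card_rootsOfUnity,
    CommGroup.card_monoidHom_of_hasEnoughRootsOfUnity, card_ab, ← pow_mul, ← pow_mul, ← pow_add,
    ← pow_add]
  congr 1
  ring

theorem uni_le (n : ℕ) : 2 * n * n + (n + 1) * ∑ s : Slot n, (s.1.val + 1) ≤ n ^ 3 + 3 * n ^ 2 := by
  have h := sum_le n
  calc 2 * n * n + (n + 1) * ∑ s : Slot n, (s.1.val + 1) ≤ 2 * n * n + (n + 1) * (n * n) := by gcongr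
    _ = n ^ 3 + 3 * n ^ 2 := by ring

/-- **Groups of class at most two.** -/
theorem embeds {p : ℕ} (hp : p.Prime) (n : ℕ) (P : Type) [Group P] (hP : Nat.card P = p ^ n)
    (hcl : ∀ x y : P, ⁅x, y⁆ ∈ center P) : ∃ φ : P →* Uni p n, Function.Injective φ := by
  classical
  haveI : Finite P := Nat.finite_of_card_ne_zero (by rw [hP]; exact (pow_pos hp.pos n).ne')
  haveI : NeZero (p ^ n) := ⟨(pow_pos hp.pos _).ne'⟩
  haveI : NeZero (p ^ (2 * n)) := ⟨(pow_pos hp.pos _).ne'⟩
  -- the commutator is bimultiplicative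
  have hc1 : ∀ x y z : P, ⁅x * y, z⁆ = ⁅x, z⁆ * ⁅y, z⁆ := by
    intro x y z
    have h1 : ⁅x * y, z⁆ = x * ⁅y, z⁆ * x⁻¹ * ⁅x, z⁆ := by
      simp only [commutatorElement_def]; group
    rw [h1, mem_center_iff.mp (hcl y z) x, mul_inv_cancel_right, mem_center_iff.mp (hcl y z) ⁅x, z⁆]
  have hc2 : ∀ x y z : P, ⁅x, y * z⁆ = ⁅x, y⁆ * ⁅x, z⁆ := by
    intro x y z
    have h1 : ⁅x, y * z⁆ = ⁅x, y⁆ * (y * ⁅x, z⁆ * y⁻¹) := by
      simp only [commutatorElement_def]; group
    rw [h1, mem_center_iff.mp (hcl x z) y, mul_inv_cancel_right]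
  have hcz : ∀ z ∈ center P, ∀ x : P, ⁅z, x⁆ = 1 := by
    intro z hz x
    rw [commutatorElement_def, ← mem_center_iff.mp hz x]; group
  have hcz' : ∀ z ∈ center P, ∀ x : P, ⁅x, z⁆ = 1 := by
    intro z hz x
    rw [commutatorElement_def, mem_center_iff.mp hz x]; group
  have hcom : ∀ a b : P ⧸ center P, a * b = b * a := by
    intro a b
    obtain ⟨x, rfl⟩ := QuotientGroup.mk_surjective a
    obtain ⟨y, rfl⟩ := QuotientGroup.mk_surjective b
    rw [← QuotientGroup.mk_mul, ← QuotientGroup.mk_mul, QuotientGroup.eq]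
    have := hcl y⁻¹ x⁻¹
    rw [commutatorElement_def] at this
    convert this using 1
    group
  letI : CommGroup (P ⧸ center P) := { (inferInstance : Group (P ⧸ center P)) with mul_comm := hcom }
  let π : P →* (P ⧸ center P) := QuotientGroup.mk' (center P)
  have hπ : ∀ x, π x = 1 ↔ x ∈ center P := fun x => QuotientGroup.eq_one_iff x
  -- sizes
  have hcard : Nat.card (P ⧸ center P) * Nat.card (center P) = p ^ n := by
    rw [← hP]; exact (Subgroup.card_eq_card_quotient_mul_card_subgroup (center P)).symm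
  obtain ⟨k, hkn, hk⟩ := (Nat.dvd_prime_pow hp).mp (Dvd.intro _ hcard)
  -- the retract
  obtain ⟨inj, pr, hpr⟩ := exists_retract hp hkn hk
  -- characters of the centre
  letI : CommGroup (center P) := { (inferInstance : Group (center P)) with
    mul_comm := fun a b => Subtype.ext (mem_center_iff.mp b.2 a) }
  obtain ⟨l, hl⟩ := exists_chars (Z := center P) hp n ⊤ (by
    rw [Subgroup.card_top]; exact Dvd.intro_left _ hcard)
  have hmem : ∀ i (z : center P), l i z ∈ rootsOfUnity (p ^ n) ℂ := by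
    intro i z
    rw [mem_rootsOfUnity', ← Units.val_pow_eq_pow_val, ← map_pow]
    have h1 : z ^ (p ^ n) = 1 := by
      apply Subtype.ext
      rw [Subgroup.coe_pow, ← hP, pow_card_eq_one']
      rfl
    rw [h1, map_one, Units.val_one]
  let L : Fin n → (center P →* rootsOfUnity (p ^ n) ℂ) := fun i =>
    MonoidHom.mk' (fun z => ⟨l i z, hmem i z⟩) (by
      intro a b
      apply Subtype.ext
      exact map_mul (l i) a b)
  have hL : ∀ i z, ((L i z : rootsOfUnity (p ^ n) ℂ) : ℂˣ) = l i z := fun i z => rfl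
  -- the commutator pairing
  let c0 : Fin n → P →* P →* rootsOfUnity (p ^ n) ℂ := fun i =>
    MonoidHom.mk' (fun x => MonoidHom.mk' (fun y => L i ⟨⁅x, y⁆, hcl x y⟩) (by
      intro y z
      rw [← map_mul]
      congr 1
      exact Subtype.ext (hc2 x y z))) (by
      intro x y
      apply MonoidHom.ext
      intro z
      change L i ⟨⁅x * y, z⁆, _⟩ = L i ⟨⁅x, z⁆, _⟩ * L i ⟨⁅y, z⁆, _⟩
      rw [← map_mul]
      congr 1
      exact Subtype.ext (hc1 x y z))
  have hc0 : ∀ i x y, c0 i x y = L i ⟨⁅x, y⁆, hcl x y⟩ := fun i x y => rfl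
  have hq : ∀ i x, (center P) ≤ (c0 i x).ker := by
    intro i x z hz
    rw [MonoidHom.mem_ker, hc0]
    have : (⟨⁅x, z⁆, hcl x z⟩ : center P) = 1 := Subtype.ext (hcz' z hz x)
    rw [this, map_one]
  let c1 : Fin n → P →* (P ⧸ center P) →* rootsOfUnity (p ^ n) ℂ := fun i =>
    MonoidHom.mk' (fun x => QuotientGroup.lift (center P) (c0 i x) (hq i x)) (by
      intro x y
      apply MonoidHom.ext
      intro z
      obtain ⟨z, rfl⟩ := QuotientGroup.mk_surjective z
      change c0 i (x * y) z = c0 i x z * c0 i y z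
      rw [map_mul, MonoidHom.mul_apply])
  have hc1' : ∀ i x y, c1 i x (π y) = c0 i x y := fun i x y => rfl
  have hq' : ∀ i, (center P) ≤ (c1 i).ker := by
    intro i z hz
    rw [MonoidHom.mem_ker]
    apply MonoidHom.ext
    intro y
    obtain ⟨y, rfl⟩ := QuotientGroup.mk_surjective y
    change c0 i z y = 1
    rw [hc0]
    have : (⟨⁅z, y⁆, hcl z y⟩ : center P) = 1 := Subtype.ext (hcz z hz y)
    rw [this, map_one]
  let c : Fin n → (P ⧸ center P) →* (P ⧸ center P) →* rootsOfUnity (p ^ n) ℂ := fun i =>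
    QuotientGroup.lift (center P) (c1 i) (hq' i)
  have hc : ∀ i x y, c i (π x) (π y) = L i ⟨⁅x, y⁆, hcl x y⟩ := fun i x y => rfl
  have hT := fun i => exists_T (c i) (by
    intro q
    obtain ⟨x, rfl⟩ := QuotientGroup.mk_surjective q
    change L i ⟨⁅x, x⁆, hcl x x⟩ = 1
    have : (⟨⁅x, x⁆, hcl x x⟩ : center P) = 1 := Subtype.ext (commutatorElement_self x)
    rw [this, map_one])
  choose T hT using hT
  let TP : Fin n → P →* P →* rootsOfUnity (p ^ n) ℂ := fun i =>
    (MonoidHom.compHom' π).comp ((T i).comp π)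
  have hTP : ∀ i x y, TP i x y = T i (π x) (π y) := fun i x y => rfl
  have hδ := fun i => exists_delta hcl (TP i) (L i)
    (by
      intro z hz x
      rw [hTP, (hπ z).mpr hz, map_one, MonoidHom.one_apply])
    (by
      intro z hz x
      rw [hTP, (hπ z).mpr hz, map_one])
    (by
      intro x y
      rw [hTP, hTP, hT i, hc])
  choose δ hδ1 hδ2 hδ3 using hδ
  have hδm : ∀ i x, δ i x ∈ rootsOfUnity (p ^ (2 * n)) ℂ := by
    intro i x
    rw [mem_rootsOfUnity', ← Units.val_pow_eq_pow_val]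
    have := hδ3 i x
    rw [hP, ← pow_add, ← two_mul] at this
    rw [this, Units.val_one]
  let S := (rootsOfUnity (p ^ n) ℂ).subtype
  let F : P → Fin n → (Ab p n →* ℂˣ) := fun x i => S.comp (((T i).flip (π x)).comp pr)
  have hF : ∀ x i a, F x i a = (T i (pr a) (π x) : ℂˣ) := fun x i a => rfl
  let φ : P →* Uni p n := MonoidHom.mk' (fun x => ⟨fun i => ⟨δ i x, hδm i x⟩, F x, inj (π x)⟩) (by
    intro x y
    apply Heis.ext
    · rw [hm]
      funext i
      apply Subtype.ext
      change δ i (x * y) = δ i x * δ i y * F y i (inj (π x))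
      rw [hδ1, hF, hpr, hTP]
    · rw [hb]
      funext i
      apply MonoidHom.ext
      intro a
      change F (x * y) i a = F x i a * F y i a
      rw [hF, hF, hF, map_mul π, map_mul (T i (pr a))]
      rfl
    · rw [ha]
      change inj (π (x * y)) = inj (π x) * inj (π y)
      rw [map_mul, map_mul])
  refine ⟨φ, (injective_iff_map_eq_one φ).mpr fun x hx => ?_⟩
  have h1 : inj (π x) = 1 := congrArg Heis.a hx
  have h2 : π x = 1 := by rw [← hpr (π x), h1, map_one]
  have h3 : x ∈ center P := (hπ x).mp h2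
  have h4 : ∀ i, l i ⟨x, h3⟩ = 1 := by
    intro i
    have h5 := congrFun (congrArg Heis.m hx) i
    have h6 : δ i x = 1 := congrArg Subtype.val h5
    have h7 := hδ2 i ⟨x, h3⟩
    rw [hL] at h7
    rw [← h7]
    exact h6
  exact congrArg Subtype.val (hl ⟨x, h3⟩ trivial h4)

end Pool.Agent.H300.UG
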