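import Mathlib
import Pool.Agent.H300.UG.Asm

/-! Groups of order `p ^ n` with a subgroup of class at most two and index at most `p ^ k`. -/

set_option autoImplicit false

namespace Pool.Agent.H300.UG

open Subgroup

open scoped commutatorElement

/-- the wreath product of `U` with the symmetric group on `ι` -/
@[ext] structure Wr (ι U : Type) [Group U] where
  f : ι → U
  s : Equiv.Perm ι

section

variable {ι U : Type} [Group U]

instance : Mul (Wr ι U) := ⟨fun x y => ⟨fun i => x.f i * y.f (x.s⁻¹ i), x.s * y.s⟩⟩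
instance : One (Wr ι U) := ⟨⟨fun _ => 1, 1⟩⟩
instance : Inv (Wr ι U) := ⟨fun x => ⟨fun i => (x.f (x.s i))⁻¹, x.s⁻¹⟩⟩

theorem wf (x y : Wr ι U) (i : ι) : (x * y).f i = x.f i * y.f (x.s⁻¹ i) := rfl
theorem ws (x y : Wr ι U) : (x * y).s = x.s * y.s := rfl
theorem w1f (i : ι) : (1 : Wr ι U).f i = 1 := rfl
theorem w1s : (1 : Wr ι U).s = 1 := rfl
theorem wif (x : Wr ι U) (i : ι) : (x⁻¹).f i = (x.f (x.s i))⁻¹ := rfl
theorem wis (x : Wr ι U) : (x⁻¹).s = x.s⁻¹ := rfl

instance : Group (Wr ι U) :=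
  Group.ofLeftAxioms
    (by
      intro x y z
      apply Wr.ext
      · funext i
        simp only [wf, ws, mul_inv_rev, Equiv.Perm.mul_apply, mul_assoc]
      · simp only [ws, mul_assoc])
    (by
      intro x
      apply Wr.ext
      · funext i
        simp [wf, w1f, w1s]
      · simp [ws, w1s])
    (by
      intro x
      apply Wr.ext
      · funext i
        simp [wf, wif, wis, w1f]
      · simp [ws, wis, w1s])

def wrEquiv : Wr ι U ≃ (ι → U) × Equiv.Perm ι where
  toFun x := (x.f, x.s)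
  invFun x := ⟨x.1, x.2⟩
  left_inv _ := rfl
  right_inv _ := rfl

end

/-- the induced homomorphism is injective if the given one is -/
theorem induced {P U ι : Type} [Group P] [Group U] (H : Subgroup P) (ψ : H →* U)
    (hψ : Function.Injective ψ) (e : (P ⧸ H) ≃ ι) : ∃ φ : P →* Wr ι U, Function.Injective φ := by
  classical
  let s : (P ⧸ H) → P := fun q => q.out
  have hs : ∀ q, (s q : P ⧸ H) = q := fun q => QuotientGroup.out_eq' q
  have hmem : ∀ (g : P) (q : P ⧸ H), (s q)⁻¹ * g * s (g⁻¹ • q) ∈ H := by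
    intro g q
    rw [mul_assoc, ← QuotientGroup.eq]
    have h1 : ((g * s (g⁻¹ • q) : P) : P ⧸ H) = g • (s (g⁻¹ • q) : P ⧸ H) := rfl
    rw [h1, hs, hs, smul_inv_smul]
  let F : P → ι → U := fun g i => ψ ⟨_, hmem g (e.symm i)⟩
  let σ : P → Equiv.Perm ι := fun g => (e.symm.trans (MulAction.toPerm g)).trans e
  have hσ : ∀ g i, σ g i = e (g • e.symm i) := fun g i => rfl
  have hσi : ∀ g i, (σ g)⁻¹ i = e (g⁻¹ • e.symm i) := fun g i => rfl
  let φ : P →* Wr ι U := MonoidHom.mk' (fun g => ⟨F g, σ g⟩) (by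
    intro g h
    apply Wr.ext
    · funext i
      rw [wf]
      change F (g * h) i = F g i * F h ((σ g)⁻¹ i)
      rw [hσi]
      change ψ _ = ψ _ * ψ _
      rw [← map_mul]
      congr 1
      apply Subtype.ext
      change (s (e.symm i))⁻¹ * (g * h) * s ((g * h)⁻¹ • e.symm i) =
        ((s (e.symm i))⁻¹ * g * s (g⁻¹ • e.symm i)) *
          ((s (e.symm (e (g⁻¹ • e.symm i))))⁻¹ * h * s (h⁻¹ • e.symm (e (g⁻¹ • e.symm i))))
      rw [Equiv.symm_apply_apply, mul_inv_rev, mul_smul]
      group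
    · rw [ws]
      apply Equiv.ext
      intro i
      rw [Equiv.Perm.mul_apply]
      change e ((g * h) • e.symm i) = e (g • e.symm (e (h • e.symm i)))
      rw [Equiv.symm_apply_apply, mul_smul])
  refine ⟨φ, (injective_iff_map_eq_one φ).mpr fun g hg => ?_⟩
  have h1 : F g (e ((1 : P) : P ⧸ H)) = 1 := congrFun (congrArg Wr.f hg) _
  have h2 : σ g (e ((1 : P) : P ⧸ H)) = e ((1 : P) : P ⧸ H) := by
    have := congrArg Wr.s hg
    change σ g = 1 at this
    rw [this]; rfl
  rw [hσ] at h2
  have h3 := e.injective h2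
  rw [Equiv.symm_apply_apply] at h3
  have h4 : g⁻¹ • ((1 : P) : P ⧸ H) = ((1 : P) : P ⧸ H) := by
    rw [inv_smul_eq_iff]; exact h3.symm
  have h5 : (⟨_, hmem g (e.symm (e ((1 : P) : P ⧸ H)))⟩ : H) = 1 := hψ (by rw [map_one]; exact h1)
  have h6 := congrArg Subtype.val h5
  change (s (e.symm (e ((1 : P) : P ⧸ H))))⁻¹ * g * s (g⁻¹ • e.symm (e ((1 : P) : P ⧸ H))) = 1 at h6
  rw [Equiv.symm_apply_apply, h4] at h6
  have h7 : g = s ((1 : P) : P ⧸ H) * ((s ((1 : P) : P ⧸ H))⁻¹ * g * s ((1 : P) : P ⧸ H)) *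
      (s ((1 : P) : P ⧸ H))⁻¹ := by group
  rw [h7, h6]
  group

/-- **Class at most two on a subgroup of index at most `p ^ k`.** -/
theorem universal {p : ℕ} (hp : p.Prime) (n k : ℕ) :
    ∃ (m : ℕ) (U : Type) (_ : Group U), Nat.card U = p ^ m ∧
      m < p ^ k * (n ^ 3 + 3 * n ^ 2 + 1) ∧
      ∀ (P : Type) [Group P], Nat.card P = p ^ n →
        (∃ H : Subgroup P, H.index ≤ p ^ k ∧ ∀ x ∈ H, ∀ y ∈ H, ∀ z ∈ H, ⁅⁅x, y⁆, z⁆ = 1) →
        ∃ φ : P →* U, Function.Injective φ := by
  classical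
  haveI : Fact p.Prime := ⟨hp⟩
  obtain ⟨j, hj, hjk, hjn⟩ : ∃ j, j = min k n ∧ j ≤ k ∧ j ≤ n := ⟨_, rfl, min_le_left _ _, min_le_right _ _⟩
  let W := Wr (Fin (p ^ j)) (Uni p (n - j))
  have hU := card_uni hp (n - j)
  haveI : Finite (Uni p (n - j)) := Nat.finite_of_card_ne_zero (by rw [hU]; exact (pow_pos hp.pos _).ne')
  haveI : Finite W := Finite.of_equiv _ (wrEquiv (ι := Fin (p ^ j)) (U := Uni p (n - j))).symm
  have hW : Nat.card W = p ^ ((2 * (n - j) * (n - j) +
      ((n - j) + 1) * ∑ s : Slot (n - j), (s.1.val + 1)) * p ^ j) * (p ^ j).factorial := by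
    rw [Nat.card_congr (wrEquiv (ι := Fin (p ^ j)) (U := Uni p (n - j))), Nat.card_prod,
      Nat.card_fun, Nat.card_fin, hU, ← pow_mul, Nat.card_eq_fintype_card, Fintype.card_perm,
      Fintype.card_fin]
  let S : Sylow p W := Classical.choice inferInstance
  have hS : Nat.card S = p ^ (Nat.card W).factorization p := S.card_eq_multiplicity
  have hle := uni_le (n - j)
  refine ⟨(Nat.card W).factorization p, S, inferInstance, hS, ?_, ?_⟩
  · rw [hW, Nat.factorization_mul (pow_pos hp.pos _).ne' (Nat.factorial_ne_zero _),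
      Finsupp.add_apply, hp.factorization_pow, Finsupp.single_eq_same]
    have h1 : (p ^ j).factorial.factorization p < p ^ j := by
      have h2 := sub_one_mul_padicValNat_factorial (p := p) (p ^ j)
      rw [Nat.factorization_def _ hp]
      have h3 : 0 < (Nat.digits p (p ^ j)).sum := by
        rw [pos_iff_ne_zero]
        intro h
        have h5 : ∀ d ∈ Nat.digits p (p ^ j), d = 0 := by
          intro d hd
          have := List.single_le_sum (fun _ _ => Nat.zero_le _) d hd
          omega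
        have h6 := Nat.ofDigits_digits p (p ^ j)
        have h7 : ∀ L : List ℕ, (∀ d ∈ L, d = 0) → Nat.ofDigits p L = 0 := by
          intro L
          induction L with
          | nil => intro _; rfl
          | cons a L ih =>
            intro hL
            rw [Nat.ofDigits_cons, ih fun d hd => hL d (List.mem_cons_of_mem _ hd),
              hL a List.mem_cons_self]
            simp
        rw [h7 _ h5] at h6
        exact absurd h6.symm (pow_pos hp.pos _).ne'
      have h8 : (p - 1) * padicValNat p (p ^ j).factorial < p ^ j := by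
        rw [h2]
        have := pow_pos hp.pos j
        omega
      have h9 : padicValNat p (p ^ j).factorial ≤ (p - 1) * padicValNat p (p ^ j).factorial :=
        Nat.le_mul_of_pos_left _ (by have := hp.two_le; omega)
      omega
    have h2 : (n - j) ^ 3 + 3 * (n - j) ^ 2 ≤ n ^ 3 + 3 * n ^ 2 := by
      have : n - j ≤ n := Nat.sub_le _ _
      gcongr
    have h3 : p ^ j ≤ p ^ k := Nat.pow_le_pow_right hp.pos hjk
    calc (2 * (n - j) * (n - j) + ((n - j) + 1) * ∑ s : Slot (n - j), (s.1.val + 1)) * p ^ j +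
          (p ^ j).factorial.factorization p
        < (n ^ 3 + 3 * n ^ 2) * p ^ j + p ^ j := by
          have := Nat.mul_le_mul_right (p ^ j) (hle.trans h2)
          omega
      _ = p ^ j * (n ^ 3 + 3 * n ^ 2 + 1) := by ring
      _ ≤ p ^ k * (n ^ 3 + 3 * n ^ 2 + 1) := Nat.mul_le_mul_right _ h3
  · intro P _ hP ⟨H, hHi, hH⟩
    haveI : Finite P := Nat.finite_of_card_ne_zero (by rw [hP]; exact (pow_pos hp.pos n).ne')
    -- a subgroup of index `p ^ j`
    obtain ⟨a, han, ha⟩ := (Nat.dvd_prime_pow hp).mp (hP ▸ H.card_subgroup_dvd_card)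
    have hidx : H.index = p ^ (n - a) := by
      have h1 := H.card_mul_index
      rw [ha, hP] at h1
      have h2 : p ^ a * p ^ (n - a) = p ^ n := by rw [← pow_add]; congr 1; omega
      exact Nat.eq_of_mul_eq_mul_left (pow_pos hp.pos a) (h1.trans h2.symm)
    have hak : n - a ≤ k := by
      rw [hidx] at hHi
      exact (Nat.pow_le_pow_iff_right hp.one_lt).mp hHi
    have hPp : IsPGroup p P := IsPGroup.of_card hP
    obtain ⟨K, hKc, hKH⟩ : ∃ K : Subgroup P, Nat.card K = p ^ (n - j) ∧ K ≤ H := by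
      obtain ⟨K, hK, hKH⟩ := Sylow.exists_subgroup_le_card_pow_prime_of_le_card (n := n - j) hp hPp
        (H := H) (by rw [ha]; exact Nat.pow_le_pow_right hp.pos (by omega))
      exact ⟨K, hKH, hK⟩
    have hKidx : Nat.card (P ⧸ K) = p ^ j := by
      have h1 := K.card_mul_index
      rw [hKc, hP] at h1
      have h2 : p ^ (n - j) * p ^ j = p ^ n := by rw [← pow_add]; congr 1; omega
      exact Nat.eq_of_mul_eq_mul_left (pow_pos hp.pos _) (h1.trans h2.symm)
    obtain ⟨ψ, hψ⟩ := embeds hp (n - j) K hKc (by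
      intro x y
      rw [mem_center_iff]
      intro z
      apply Subtype.ext
      have h1 := hH x (hKH x.2) y (hKH y.2) z (hKH z.2)
      rw [commutatorElement_eq_one_iff_mul_comm] at h1
      exact h1.symm)
    have e : (P ⧸ K) ≃ Fin (p ^ j) := by
      rw [← hKidx]
      exact Finite.equivFin _
    obtain ⟨φ, hφ⟩ := induced K ψ hψ e
    have hr : IsPGroup p φ.range := hPp.of_surjective φ.rangeRestrict φ.rangeRestrict_surjective
    obtain ⟨Q, hQ⟩ := hr.exists_le_sylow
    let E : Q ≃* S := Sylow.equiv Q S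
    refine ⟨E.toMonoidHom.comp (φ.codRestrict (Q : Subgroup W) fun x => hQ ⟨x, rfl⟩), ?_⟩
    intro x y hxy
    apply hφ
    have h1 := E.injective hxy
    exact congrArg Subtype.val h1

end Pool.Agent.H300.UG
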