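import Mathlib
import Pool.Graph.R_pool_sql_team_seeded_ab47071d.Results.MP_aa96c4_al.QuadraticLowerBound

/-! The lower bound: the proof of the library module `QuadraticLowerBound` uses only groups of class at most two. -/

set_option autoImplicit false

namespace Pool.Agent.H300.UG

open scoped commutatorElement

open Pool.Agent.Results.MP_aa96c4_al.QuadraticLowerBound

theorem grp_cls {p r s : ℕ} (B : Fin r → Fin r → Fin s → ZMod p) (x y z : Grp p r s B) :
    ⁅⁅x, y⁆, z⁆ = 1 := by
  have hz : ∀ w : Grp p r s B, w.v = 0 → w * z = z * w := by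
    intro w hw
    ext k
    · simp [mul_v, hw]
    · simp only [mul_w, hw, form_zero_left, form_zero_right, Pi.add_apply, Pi.zero_apply]
      ring
  have h1 : (⁅x, y⁆ : Grp p r s B).v = 0 := by
    rw [commutatorElement_def]
    simp only [mul_v, inv_v]
    abel
  rw [commutatorElement_eq_one_iff_mul_comm]
  exact hz _ h1

theorem count' (p : ℕ) (hp : p.Prime) (r s m : ℕ) (hs : s ≤ r * (r - 1) / 2) (U : Type) [Group U]
    (hU : Nat.card U = p ^ m)
    (hall : ∀ (P : Type) [Group P], Nat.card P = p ^ (r + s) → (∀ x y z : P, ⁅⁅x, y⁆, z⁆ = 1) →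
      ∃ φ : P →* U, Function.Injective φ) :
    s * (r * (r - 1) / 2 - s) ≤ m * r := by
  classical
  haveI : Fact p.Prime := ⟨hp⟩
  haveI : NeZero p := ⟨hp.pos.ne'⟩
  haveI : Finite U := Nat.finite_of_card_ne_zero (by rw [hU]; exact (pow_pos hp.pos m).ne')
  have h4 : Fintype.card ((j : Fin r) × Fin j.val) = r * (r - 1) / 2 := by
    rw [Fintype.card_sigma]
    simp only [Fintype.card_fin]
    rw [Fin.sum_univ_eq_sum_range (fun i => i) r, Finset.sum_range_id]
  obtain ⟨ι⟩ : Nonempty (Fin s ↪ ((j : Fin r) × Fin j.val)) := by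
    apply Function.Embedding.nonempty_of_card_le
    rw [h4, Fintype.card_fin]; exact hs
  have hι : Function.Injective (ι : Fin s → ((j : Fin r) × Fin j.val)) := ι.injective
  choose φ hφ using fun t : {x : ((j : Fin r) × Fin j.val) // ¬ ∃ k, ι k = x} → Fin s → ZMod p =>
    hall (Grp p r s (tri ι t)) (card_grp (tri ι t)) (grp_cls (tri ι t))
  let F : ({x : ((j : Fin r) × Fin j.val) // ¬ ∃ k, ι k = x} → Fin s → ZMod p) → (Fin r → U) := fun t i =>
    φ t (gv (tri ι t) i)
  have hF : Function.Injective F := by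
    intro t t' h
    have h1 : ∀ i, φ t (gv (tri ι t) i) = φ t' (gv (tri ι t') i) := fun i => congrFun h i
    have h2 : ∀ k, φ t (ge (tri ι t) k) = φ t' (ge (tri ι t') k) := by
      intro k
      let i : Fin r := ⟨(ι k).2.val, (ι k).2.isLt.trans (ι k).1.isLt⟩
      have hi : i.val < (ι k).1.val := (ι k).2.isLt
      rw [ge_eq (tri ι t) i (ι k).1 k (tri_zero ι t i _ hi) (tri_single ι hι t k i hi rfl),
        ge_eq (tri ι t') i (ι k).1 k (tri_zero ι t' i _ hi) (tri_single ι hι t' k i hi rfl)]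
      simp only [map_mul, map_inv, h1]
    funext x
    obtain ⟨⟨j, ⟨i, hi⟩⟩, hx⟩ := x
    let i' : Fin r := ⟨i, hi.trans j.isLt⟩
    have h3 := recover (tri ι t) (tri ι t') (φ t) (φ t') (hφ t) h1 h2 i' j
      (tri_zero ι t i' j hi) (tri_zero ι t' i' j hi)
    unfold tri at h3
    rw [dif_pos hi, dif_pos hi, dif_neg hx, dif_neg hx] at h3
    exact h3
  have hcard := Nat.card_le_card_of_injective F hF
  have h6 : Nat.card {x : ((j : Fin r) × Fin j.val) // ¬ ∃ k, ι k = x} = r * (r - 1) / 2 - s := by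
    rw [Nat.card_eq_fintype_card, Fintype.card_subtype_compl, h4]
    congr 1
    have : Fintype.card {x : ((j : Fin r) × Fin j.val) // ∃ k, ι k = x} = Fintype.card (Fin s) :=
      Fintype.card_congr (Equiv.ofInjective ι hι).symm
    rw [this, Fintype.card_fin]
  rw [Nat.card_fun, Nat.card_fun, Nat.card_fun, Nat.card_fin, Nat.card_fin, Nat.card_zmod,
    h6, hU, ← pow_mul, ← pow_mul] at hcard
  exact (Nat.pow_le_pow_iff_right hp.one_lt).mp hcard

theorem lower (f : ℕ → ℕ) (h1 : ∀ r s : ℕ, s ≤ r * (r - 1) / 2 → s * (r * (r - 1) / 2 - s) ≤ f (r + s) * r) :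
    ∀ n : ℕ, (n / 2) * ((n / 2) - 3) ≤ 2 * f n := by
    intro n
    obtain ⟨t, e, he, hte, he1⟩ : ∃ t e, n = 2 * t + e ∧ n / 2 = t ∧ e ≤ 1 := ⟨n / 2, n % 2, by omega, rfl, by omega⟩
    rw [hte]
    rcases Nat.lt_or_ge t 4 with ht | ht
    · have : t - 3 = 0 := by omega
      rw [this]; simp
    obtain ⟨u, rfl⟩ : ∃ u, t = u + 4 := ⟨t - 4, by omega⟩
    -- r = t + e, s = t
    have hdiv : 2 * ((u + 4 + e) * (u + 4 + e - 1) / 2) = (u + 4 + e) * (u + 4 + e - 1) := by
      have := Nat.even_mul_pred_self (u + 4 + e)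
      exact Nat.mul_div_cancel' this.two_dvd
    set D := (u + 4 + e) * (u + 4 + e - 1) / 2 with hD
    have hsub : u + 4 + e - 1 = u + 3 + e := by omega
    rw [hsub] at hdiv
    have hDs : u + 4 ≤ D := by nlinarith
    have h3 := h1 (u + 4 + e) (u + 4) (by rw [← hD]; exact hDs)
    rw [← hD, show u + 4 + e + (u + 4) = n by omega] at h3
    obtain ⟨d, hd⟩ : ∃ d, D = u + 4 + d := ⟨D - (u + 4), by omega⟩
    rw [hd] at h3 hdiv
    have h4 : u + 4 + d - (u + 4) = d := by omega
    rw [h4] at h3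
    have h5 : u + 4 - 3 = u + 1 := by omega
    rw [h5]
    -- (u+4) d ≤ f n (u+4+e), 2 (u+4+d) = (u+4+e)(u+3+e)
    have h6 : (u + 4) * (u + 1) * (u + 4 + e) ≤ 2 * f n * (u + 4 + e) := by
      interval_cases e
      · have h7 : 2 * d = (u + 4) * (u + 1) := by
          have : 2 * (u + 4 + d) = (u + 4) * (u + 3) := by simpa using hdiv
          nlinarith
        calc (u + 4) * (u + 1) * (u + 4 + 0) = 2 * ((u + 4) * d) := by rw [← h7]; ring
          _ ≤ 2 * (f n * (u + 4 + 0)) := Nat.mul_le_mul_left _ h3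
          _ = _ := by ring
      · have h7 : 2 * d = (u + 4) * (u + 3) := by
          have : 2 * (u + 4 + d) = (u + 5) * (u + 4) := by simpa using hdiv
          nlinarith
        calc (u + 4) * (u + 1) * (u + 4 + 1) ≤ (u + 4) * ((u + 4) * (u + 3)) := by nlinarith
          _ = 2 * ((u + 4) * d) := by rw [← h7]; ring
          _ ≤ 2 * (f n * (u + 4 + 1)) := Nat.mul_le_mul_left _ h3
          _ = _ := by ring
    exact Nat.le_of_mul_le_mul_right h6 (by omega)

end Pool.Agent.H300.UG
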